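import Pool.Agent.H87.D3.Targets3

/-! One step of the absorption. -/

set_option autoImplicit false

namespace Pool.Agent.H65.D3

open MeasureTheory Metric Set Filter Topology
open scoped ContDiff ENNReal
open Pool.Agent.H87.D3
open Pool.Agent.H87.SN (E)

theorem sqrt_ofReal (a : ℝ) : ENNReal.ofReal a ^ (1 / 2 : ℝ) = ENNReal.ofReal (Real.sqrt a) := by
  rcases le_or_gt 0 a with ha | ha
  · rw [ENNReal.ofReal_rpow_of_nonneg ha (by norm_num), Real.sqrt_eq_rpow]
  · rw [ENNReal.ofReal_of_nonpos ha.le, Real.sqrt_eq_zero_of_nonpos ha.le]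
    simp

theorem pf_HST (hTON : T_TON) (hBTF : T_BTF) (hMUF : T_MUF) : T_HST := by
  intro Λ e C he hC
  obtain ⟨C₁, hC₁, hT⟩ := hTON Λ e e he he
  refine ⟨C * C₁, by positivity, ?_⟩
  intro q K ν hq hν
  set Cb : ℝ := 3 / 2 * Real.sqrt (512 * Λ) with hCb
  have hCb0 : 0 ≤ Cb := by positivity
  refine ⟨Cb + C * C₁ * 2 ^ (4 * q), by positivity, ?_⟩
  intro m G hG hrec j hj
  set s : ℝ := sj j with hs
  have hs0 : 0 < s := by
    rw [hs]
    unfold sj
    positivity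
  -- scales
  have hs16 : 2 ^ (4 * q) * s ≤ 1 / 16 := by
    rw [hs]
    unfold sj
    have h1 : ((1 : ℝ) / 2) ^ j ≤ (1 / 2) ^ (4 * q + 4) :=
      pow_le_pow_of_le_one (by norm_num) (by norm_num) hj
    calc (2 : ℝ) ^ (4 * q) * (1 / 2) ^ j ≤ 2 ^ (4 * q) * (1 / 2) ^ (4 * q + 4) := by gcongr
      _ = (2 * (1 / 2)) ^ (4 * q) * (1 / 16) := by
        rw [pow_add, mul_pow]
        norm_num
        ring
      _ = 1 / 16 := by norm_num
  have hp1 : (16 : ℝ) ≤ 2 ^ (4 * q) := by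
    calc (16 : ℝ) = 2 ^ (4 * 1) := by norm_num
      _ ≤ 2 ^ (4 * q) := by
        apply pow_le_pow_right₀ (by norm_num)
        omega
  have hs256 : s ≤ 1 / 256 := by nlinarith
  have hball : ∀ x ∈ ball (0 : V) (3 / 2), ∀ r : ℝ, r ≤ 1 / 2 → ball x r ⊆ ball 0 2 := by
    intro x hx r hr
    refine ball_subset_ball' ?_
    rw [mem_ball] at hx
    linarith
  set S : Set V := {x : V | x ∈ ball 0 (3 / 2) ∧ e ≤ th G x s} with hS
  have hSm : MeasurableSet S := by
    have h1 : Continuous fun x => th G x s := by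
      unfold th
      exact ((hMUF m G hG.memG).2.2.2.2.2 s).div_const s
    exact measurableSet_ball.inter (isClosed_le continuous_const h1).measurableSet
  set A₁ : Set V := {x : V | x ∈ ball 0 (3 / 2) ∧ ENNReal.ofReal ν ≤ Wc G (4 * q) K x s} with hA₁
  set M : Set V := toMeasurable volume A₁ with hM
  have hMm : MeasurableSet M := measurableSet_toMeasurable _ _
  have hAM : A₁ ⊆ M := subset_toMeasurable _ _
  have hMv : volume M = volume A₁ := measure_toMeasurable _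
  -- the part which is not pinched
  have h1 : ∫⁻ x in S ∩ M, ENNReal.ofReal (3 / 2 - ‖x‖) * bs G x s ≤
      ENNReal.ofReal Cb * volume A₁ := by
    calc ∫⁻ x in S ∩ M, ENNReal.ofReal (3 / 2 - ‖x‖) * bs G x s
        ≤ ∫⁻ _ in S ∩ M, ENNReal.ofReal Cb := by
          refine setLIntegral_mono' (hSm.inter hMm) fun x hx => ?_
          have hxb : x ∈ ball (0 : V) (3 / 2) := hx.1.1
          have h2 := hBTF.2.1 m G Λ hG x s hs0 (hball x hxb _ (by linarith))
          have h3 : bs G x s ≤ ENNReal.ofReal (Real.sqrt (512 * Λ)) := by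
            rw [← sqrt_ofReal]
            unfold bs
            exact ENNReal.rpow_le_rpow h2 (by norm_num)
          rw [hCb, ENNReal.ofReal_mul (by norm_num)]
          refine mul_le_mul' (ENNReal.ofReal_le_ofReal ?_) h3
          linarith [norm_nonneg x]
      _ = ENNReal.ofReal Cb * volume (S ∩ M) := setLIntegral_const _ _
      _ ≤ ENNReal.ofReal Cb * volume A₁ := by
          rw [← hMv]
          gcongr
          exact inter_subset_right
  -- the pinched part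
  have hwt : ∀ x y : V, x ∈ ball (0 : V) (3 / 2) → dist x y < 2 ^ (4 * q) * sj j →
      ENNReal.ofReal (3 / 2 - ‖x‖) ≤ ENNReal.ofReal (3 / 2 - ‖y‖) +
        ENNReal.ofReal (2 ^ (4 * q) * s) := by
    intro x y _ hxy
    refine le_trans (ENNReal.ofReal_le_ofReal ?_) ENNReal.ofReal_add_le
    have h2 : ‖y‖ ≤ ‖x‖ + dist x y := by
      rw [dist_eq_norm]
      calc ‖y‖ = ‖x - (x - y)‖ := by congr 1; abel
        _ ≤ ‖x‖ + ‖x - y‖ := norm_sub_le _ _
    linarith
  have hwm : Measurable fun x : V => ENNReal.ofReal (3 / 2 - ‖x‖) := by fun_prop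
  have h2 : ENNReal.ofReal ((s ^ 2)⁻¹) *
      ∫⁻ x in S \ M, ENNReal.ofReal (3 / 2 - ‖x‖) * bs G x s ≤
      ENNReal.ofReal (C * C₁ * (1 / 2) ^ q) * (Hj G e (j + 20 * q - 1) + Hj G e (j + 3 - 4 * q) +
        ENNReal.ofReal (2 ^ (4 * q) * s)) := by
    refine le_trans ?_ (hT m G hG C q j (fun x => ENNReal.ofReal (3 / 2 - ‖x‖)) (2 ^ (4 * q) * s)
      hC hq hj hwm (by positivity) hwt)
    refine mul_le_mul' le_rfl ?_
    calc ∫⁻ x in S \ M, ENNReal.ofReal (3 / 2 - ‖x‖) * bs G x s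
        ≤ ∫⁻ x in S \ M, ENNReal.ofReal (3 / 2 - ‖x‖) * Rg G e C q x s := by
          refine setLIntegral_mono' (hSm.diff hMm) fun x hx => ?_
          have hxb : x ∈ ball (0 : V) (3 / 2) := hx.1.1
          have h3 : Wc G (4 * q) K x s < ENNReal.ofReal ν := by
            by_contra h4
            exact hx.2 (hAM ⟨hxb, not_lt.1 h4⟩)
          have h4 := (hrec x s hs0 (hball x hxb _ (by nlinarith)) (by linarith [hx.1.2]) h3).1
          gcongr
      _ ≤ ∫⁻ x in S, ENNReal.ofReal (3 / 2 - ‖x‖) * Rg G e C q x s :=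
          lintegral_mono_set Set.sdiff_subset
  have h3 : Hj G e j ≤ ENNReal.ofReal ((s ^ 2)⁻¹) *
      (∫⁻ x in S ∩ M, ENNReal.ofReal (3 / 2 - ‖x‖) * bs G x s) + ENNReal.ofReal ((s ^ 2)⁻¹) *
      ∫⁻ x in S \ M, ENNReal.ofReal (3 / 2 - ‖x‖) * bs G x s := by
    rw [← mul_add]
    unfold Hj
    refine mul_le_mul' le_rfl (le_of_eq ?_)
    exact (lintegral_inter_add_sdiff _ S hMm).symm
  refine h3.trans ?_
  have h4 : ENNReal.ofReal ((s ^ 2)⁻¹) *
      (∫⁻ x in S ∩ M, ENNReal.ofReal (3 / 2 - ‖x‖) * bs G x s) ≤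
      ENNReal.ofReal Cb * bad G (4 * q) K ν j := by
    calc ENNReal.ofReal ((s ^ 2)⁻¹) *
        (∫⁻ x in S ∩ M, ENNReal.ofReal (3 / 2 - ‖x‖) * bs G x s)
        ≤ ENNReal.ofReal ((s ^ 2)⁻¹) * (ENNReal.ofReal Cb * volume A₁) := by gcongr
      _ = ENNReal.ofReal Cb * (ENNReal.ofReal ((s ^ 2)⁻¹) * volume A₁) := by ring
  have h5 : ENNReal.ofReal (C * C₁ * (1 / 2) ^ q) * ENNReal.ofReal (2 ^ (4 * q) * s) ≤
      ENNReal.ofReal ((Cb + C * C₁ * 2 ^ (4 * q)) * (1 / 2) ^ j) := by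
    rw [← ENNReal.ofReal_mul (by positivity)]
    apply ENNReal.ofReal_le_ofReal
    rw [hs]
    unfold sj
    have h6 : ((1 : ℝ) / 2) ^ q ≤ 1 := pow_le_one₀ (by norm_num) (by norm_num)
    have h7 : 0 ≤ C * C₁ * 2 ^ (4 * q) * (1 / 2) ^ j := by positivity
    have h8 : 0 ≤ Cb * (1 / 2) ^ j := by positivity
    nlinarith
  calc ENNReal.ofReal ((s ^ 2)⁻¹) *
        (∫⁻ x in S ∩ M, ENNReal.ofReal (3 / 2 - ‖x‖) * bs G x s) + ENNReal.ofReal ((s ^ 2)⁻¹) *
        ∫⁻ x in S \ M, ENNReal.ofReal (3 / 2 - ‖x‖) * bs G x s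
      ≤ ENNReal.ofReal Cb * bad G (4 * q) K ν j + ENNReal.ofReal (C * C₁ * (1 / 2) ^ q) *
        (Hj G e (j + 20 * q - 1) + Hj G e (j + 3 - 4 * q) + ENNReal.ofReal (2 ^ (4 * q) * s)) :=
        add_le_add h4 h2
    _ = ENNReal.ofReal Cb * bad G (4 * q) K ν j + ENNReal.ofReal (C * C₁ * (1 / 2) ^ q) *
        (Hj G e (j + 20 * q - 1) + Hj G e (j + 3 - 4 * q)) +
        ENNReal.ofReal (C * C₁ * (1 / 2) ^ q) * ENNReal.ofReal (2 ^ (4 * q) * s) := by
        ring
    _ ≤ _ := by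
        refine add_le_add (add_le_add (mul_le_mul' (ENNReal.ofReal_le_ofReal ?_) le_rfl) le_rfl) h5
        have : 0 ≤ C * C₁ * 2 ^ (4 * q) := by positivity
        linarith

end Pool.Agent.H65.D3
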